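import Pool.Agent.Q26.SP.Zero

/-!
# The Beilinson–Soulé conjecture in one characteristic is decided in degree `0` by one field
-/

set_option autoImplicit false

namespace Pool.Agent.Results.MP_e2821c_ag.OneFieldDecides

open Pool.Agent.Q26.SP.Zero

/-- Let `P` be a prime field and let `Ω` be an algebraically closed field with an infinite
transcendence basis over `P`. The following are equivalent:

1. `ℋⁱ(ℤ(n)) = 0` on `Sm/k` for all fields `k` of the characteristic of `P`, `n ≥ 1`, `i ≤ 0`;
2. `H⁰(Ω, ℤ(n)) = 0` for all `n ≥ 1`;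
3. `Hⁱ(F, ℤ(n)) = 0` for all fields `F` of the characteristic of `P`, `n ≥ 1`, `i ≤ 0`.

The question is the conjunction of 1. over all prime fields. -/
theorem result (M : Motivic) :
    (Question M ↔ ∀ (P : Type) [Field P], IsPrimeField P → SheavesVanish M P) ∧
    ∀ (P Ω I : Type) [Field P] [Field Ω] [Algebra P Ω] [IsAlgClosed Ω] [Infinite I] (b : I → Ω),
      IsPrimeField P → IsTranscendenceBasis P b →
      [SheavesVanish M P, ZeroVanish M Ω, FieldsVanish M P].TFAE := by
  refine ⟨(main M).1, ?_⟩
  intro P Ω I _ _ _ _ _ b hP hb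
  have h := ((main M).2 P Ω I b hP hb).1
  tfae_have 1 ↔ 2 := h.out 0 1
  tfae_have 2 ↔ 3 := h.out 1 3
  tfae_finish

end Pool.Agent.Results.MP_e2821c_ag.OneFieldDecides
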