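import Pool.Agent.H51BS.Sheaves

/-!
# The Beilinson–Soulé conjecture in one characteristic is decided in degree `1` by one rational
function field
-/

set_option autoImplicit false

namespace Pool.Agent.Results.MP_e2821c_ag.OneRationalFunctionField

open Pool.Agent.Q26.SP.Zero Pool.Agent.H51BS

/-- Let `P` be a prime field. The following are equivalent:

1. `ℋⁱ(ℤ(n)) = 0` on `Sm/k` for all fields `k` of the characteristic of `P`, `n ≥ 1`, `i ≤ 0`;
2. `H¹(P(t₁, t₂, …), ℚ(n))` is finite dimensional for all `n ≥ 2`;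
3. `H¹(P, ℚ(n)) → H¹(P(t₁, t₂, …), ℚ(n))` is bijective for all `n ≥ 2`;
4. `H¹(F, ℚ(n)) → H¹(F(t), ℚ(n))` is bijective for all `n ≥ 2` and all fields `F ⊇ P`.

The question is the conjunction of 1. over all prime fields.

The law: for all `i ≤ 0`, `n ≥ 1` and `d ≥ 0`, equivalent are: `Hⁱ(E, ℤ(n)) = 0` for all fields `E`
of transcendence degree at most `d` over `P`; `Hⁱ⁺¹(P(t₁, …, t_{d+1}), ℚ(n+1))` is finite
dimensional; `Hⁱ⁺¹(P, ℚ(n+1)) → Hⁱ⁺¹(P(t₁, …, t_{d+1}), ℚ(n+1))` is bijective. -/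
theorem result (M : MotivicLine) :
    (Question M.toMotivic ↔
      ∀ (P : Type) [Field P], IsPrimeField P → SheavesVanish M.toMotivic P) ∧
    ∀ (P : Type) [Field P], IsPrimeField P →
      [SheavesVanish M.toMotivic P, FiniteDegreeOne M P, RigidDegreeOne M P,
        RigidForAllFields M P].TFAE ∧
      ∀ (i n : ℤ) (d : ℕ), i ≤ 0 → 1 ≤ n →
        [VanishUpTo M P i n d, FiniteAt (M.H (i + 1) (n + 1)) P (d + 1),
          RigidAt (M.H (i + 1) (n + 1)) P (d + 1)].TFAE :=
  main_sheaves M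

end Pool.Agent.Results.MP_e2821c_ag.OneRationalFunctionField
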