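import Pool.Agent.Q26.SP.Zero

/-!
# Motivic cohomology in degrees `≤ 0`: zero or of dimension at least the transcendence degree
-/

set_option autoImplicit false

namespace Pool.Agent.Results.MP_e2821c_ag.ZeroOrTranscendenceDegree

open Pool.Agent.Q26.SP.Zero

/-- Let `P` be a prime field and let `Ω` be an algebraically closed field with an infinite
transcendence basis `b : I → Ω` over `P`. For `n ≥ 1` and `i ≤ 0` the space `Hⁱ(Ω, ℚ(n))` is zero or
of dimension at least the transcendence degree `#I` of `Ω`. So `ℋⁱ(ℤ(n)) = 0` on `Sm/k` for all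
fields `k` of the characteristic of `P`, `n ≥ 1`, `i ≤ 0`, if and only if the dimension of
`H⁰(Ω, ℚ(n))` is less than `#I` for all `n ≥ 1`. -/
theorem result (M : Motivic) (P Ω I : Type) [Field P] [Field Ω] [Algebra P Ω] [IsAlgClosed Ω]
    [Infinite I] (b : I → Ω) (hP : IsPrimeField P) (hb : IsTranscendenceBasis P b) :
    Law M Ω I ∧ (SheavesVanish M P ↔ ZeroSmall M Ω I) :=
  ⟨((main M).2 P Ω I b hP hb).2, ((main M).2 P Ω I b hP hb).1.out 0 2⟩

end Pool.Agent.Results.MP_e2821c_ag.ZeroOrTranscendenceDegree
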